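import Pool.Agent.Lib.MP_4318ff_ag.Spec.LA

/-!
# MP_4318ff_ag, block LA, module Bas: lines through a point
-/

set_option autoImplicit false

namespace Pool.Agent.Lib.MP_4318ff_ag

open scoped LinearAlgebra.Projectivization

private theorem Bas_ne {k : Type} [Field k] {r : ℕ} (C : Config k r) {i m : Fin r} (h : i ≠ m)
    (y : k) : C.ℓ m ≠ y • C.ℓ i := by
  intro hm
  have h1 := LinearIndependent.pair_iff.1 (C.indep i m h) y (-1) (by rw [hm]; simp)
  exact one_ne_zero (neg_eq_zero.1 h1.2)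

theorem tBas (h1 : PntStmt) : BasStmt := by
  intro k _ r C
  obtain ⟨p1, p2, -, -, -⟩ := h1 k
  have c1 : ∀ (i j : Fin r) (P Q : Pt k), i ≠ j → i ∈ C.through P → j ∈ C.through P →
      i ∈ C.through Q → j ∈ C.through Q → P = Q := fun i j P Q hij a b c d =>
    p1 (C.ℓ i) (C.ℓ j) P Q (C.indep i j hij) a b c d
  have c3 : ∀ P ∈ C.M, ∃ i ∈ C.through P, ∃ j ∈ C.through P, ∃ m ∈ C.through P,
      i ≠ j ∧ i ≠ m ∧ j ≠ m := by
    intro P hP
    have hP' : 3 ≤ (C.through P).ncard := hP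
    exact (Set.two_lt_ncard (Set.toFinite _)).1 hP'
  refine ⟨c1, ?_, c3, ?_, ?_, ?_⟩
  · intro P i j m hi hj hm hij him hjm
    obtain ⟨x, y, hxy⟩ := p2 P (C.ℓ i) (C.ℓ j) (C.ℓ m) (C.indep i j hij) hi hj hm
    refine ⟨x, y, ?_, ?_, hxy⟩
    · rintro rfl
      rw [zero_smul, zero_add] at hxy
      exact Bas_ne C hjm y hxy
    · rintro rfl
      rw [zero_smul, add_zero] at hxy
      exact Bas_ne C him x hxy
  · intro P hP i j
    obtain ⟨a, ha, b, hb, c, hc, hab, hac, hbc⟩ := c3 P hP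
    by_contra hcon
    have h2 : ∀ m ∈ C.through P, m = i ∨ m = j := by
      intro m hm
      by_contra h3
      exact hcon ⟨m, hm, fun h => h3 (Or.inl h), fun h => h3 (Or.inr h)⟩
    rcases h2 a ha with h3 | h3 <;> rcases h2 b hb with h4 | h4 <;> rcases h2 c hc with h5 | h5
    · exact hab (h3.trans h4.symm)
    · exact hab (h3.trans h4.symm)
    · exact hac (h3.trans h5.symm)
    · exact hbc (h4.trans h5.symm)
    · exact hbc (h4.trans h5.symm)
    · exact hac (h3.trans h5.symm)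
    · exact hab (h3.trans h4.symm)
    · exact hab (h3.trans h4.symm)
  · refine Set.Finite.subset (s := ⋃ i : Fin r, ⋃ j : Fin r,
      {P : Pt k | i ≠ j ∧ i ∈ C.through P ∧ j ∈ C.through P}) ?_ ?_
    · refine Set.finite_iUnion fun i => Set.finite_iUnion fun j => Set.Subsingleton.finite ?_
      rintro P ⟨h2, h3, h4⟩ Q ⟨-, h5, h6⟩
      exact c1 i j P Q h2 h3 h4 h5 h6
    · intro P hP
      obtain ⟨i, hi, j, hj, -, -, hij, -⟩ := c3 P hP
      exact Set.mem_iUnion.2 ⟨i, Set.mem_iUnion.2 ⟨j, hij, hi, hj⟩⟩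
  · intro P
    by_contra hcon
    push Not at hcon
    let f : (Fin 3 → k) →ₗ[k] k :=
      { toFun := fun c => c ⬝ᵥ P.rep
        map_add' := fun c d => add_dotProduct c d P.rep
        map_smul' := fun x c => smul_dotProduct x c P.rep }
    have h2 : (⊤ : Submodule k (Fin 3 → k)) ≤ LinearMap.ker f := by
      rw [← C.span, Submodule.span_le]
      rintro _ ⟨i, rfl⟩
      exact hcon i
    apply P.rep_nonzero
    funext a
    have h3 : (Pi.single a 1 : Fin 3 → k) ∈ LinearMap.ker f := h2 Submodule.mem_top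
    have h4 : (Pi.single a 1 : Fin 3 → k) ⬝ᵥ P.rep = 0 := h3
    rw [single_one_dotProduct] at h4
    exact h4

end Pool.Agent.Lib.MP_4318ff_ag
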