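import Pool.Agent.Lib.MP_4318ff_ag.Spec.LA

/-!
# MP_4318ff_ag, block LA: points and forms
-/

set_option autoImplicit false

namespace Pool.Agent.Lib.MP_4318ff_ag

open scoped LinearAlgebra.Projectivization

section

variable {k : Type} [Field k]

/-- The cross product vanishes. -/
private def Pnt_z (c d : Fin 3 → k) : Prop :=
  c 1 * d 2 - c 2 * d 1 = 0 ∧ c 2 * d 0 - c 0 * d 2 = 0 ∧ c 0 * d 1 - c 1 * d 0 = 0

/-- The cross product. -/
private def Pnt_cr (c d : Fin 3 → k) : Fin 3 → k :=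
  ![c 1 * d 2 - c 2 * d 1, c 2 * d 0 - c 0 * d 2, c 0 * d 1 - c 1 * d 0]

private theorem Pnt_cr_eq_zero {c d : Fin 3 → k} : Pnt_cr c d = 0 ↔ Pnt_z c d := by
  constructor
  · intro h
    exact ⟨congrFun h 0, congrFun h 1, congrFun h 2⟩
  · rintro ⟨h0, h1, h2⟩
    funext i
    fin_cases i
    · exact h0
    · exact h1
    · exact h2

private theorem Pnt_par {c d : Fin 3 → k} (hc : c ≠ 0) (h : Pnt_z c d) : ∃ x : k, d = x • c := by
  obtain ⟨h0, h1, h2⟩ := h
  obtain ⟨a, ha⟩ : ∃ a, c a ≠ 0 := by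
    by_contra hcon
    push Not at hcon
    exact hc (funext hcon)
  refine ⟨d a / c a, ?_⟩
  have key : ∀ j, d j * c a = d a * c j := by
    intro j
    fin_cases a <;> fin_cases j <;>
      simp only [Fin.zero_eta, Fin.mk_one, Fin.reduceFinMk, Fin.isValue] <;>
      first
        | ring1
        | linear_combination h0
        | linear_combination h1
        | linear_combination h2
        | linear_combination -h0
        | linear_combination -h1
        | linear_combination -h2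
  funext j
  rw [Pi.smul_apply, smul_eq_mul, div_mul_eq_mul_div, eq_div_iff ha]
  exact key j

private theorem Pnt_z_symm {c d : Fin 3 → k} (h : Pnt_z c d) : Pnt_z d c := by
  obtain ⟨h0, h1, h2⟩ := h
  exact ⟨by linear_combination -h0, by linear_combination -h1, by linear_combination -h2⟩

private theorem Pnt_dot (c v : Fin 3 → k) : c ⬝ᵥ v = c 0 * v 0 + c 1 * v 1 + c 2 * v 2 := by
  simp [dotProduct, Fin.sum_univ_three]

private theorem Pnt_bac {c d v : Fin 3 → k} (h1 : c ⬝ᵥ v = 0) (h2 : d ⬝ᵥ v = 0) :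
    Pnt_z v (Pnt_cr c d) := by
  rw [Pnt_dot] at h1 h2
  refine ⟨?_, ?_, ?_⟩
  · change v 1 * (c 0 * d 1 - c 1 * d 0) - v 2 * (c 2 * d 0 - c 0 * d 2) = 0
    linear_combination c 0 * h2 - d 0 * h1
  · change v 2 * (c 1 * d 2 - c 2 * d 1) - v 0 * (c 0 * d 1 - c 1 * d 0) = 0
    linear_combination c 1 * h2 - d 1 * h1
  · change v 0 * (c 2 * d 0 - c 0 * d 2) - v 1 * (c 1 * d 2 - c 2 * d 1) = 0
    linear_combination c 2 * h2 - d 2 * h1

private theorem Pnt_li {c d : Fin 3 → k} (h : LinearIndependent k ![c, d]) : Pnt_cr c d ≠ 0 := by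
  intro h0
  have hc : c ≠ 0 := h.ne_zero 0
  obtain ⟨x, hx⟩ := Pnt_par hc (Pnt_cr_eq_zero.1 h0)
  rw [LinearIndependent.pair_iff] at h
  have h1 := (h x (-1) (by rw [hx, neg_one_smul, add_neg_cancel])).2
  exact one_ne_zero (neg_eq_zero.1 h1)

private theorem Pnt_eq {P Q : Pt k} (x : k) (h : Q.rep = x • P.rep) : P = Q := by
  rw [← P.mk_rep, ← Q.mk_rep]
  exact ((Projectivization.mk_eq_mk_iff' k Q.rep P.rep Q.rep_nonzero P.rep_nonzero).2
    ⟨x, h.symm⟩).symm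

private theorem Pnt_one (c d : Fin 3 → k) (P Q : Pt k) (h : LinearIndependent k ![c, d])
    (h1 : c ⬝ᵥ P.rep = 0) (h2 : d ⬝ᵥ P.rep = 0) (h3 : c ⬝ᵥ Q.rep = 0) (h4 : d ⬝ᵥ Q.rep = 0) :
    P = Q := by
  have hw := Pnt_li h
  obtain ⟨x, hx⟩ := Pnt_par P.rep_nonzero (Pnt_bac h1 h2)
  obtain ⟨y, hy⟩ := Pnt_par hw (Pnt_z_symm (Pnt_bac h3 h4))
  exact Pnt_eq (y * x) (by rw [hy, hx, smul_smul])

private theorem Pnt_five (P : Pt k) : ∃ c d : Fin 3 → k, LinearIndependent k ![c, d] ∧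
    c ⬝ᵥ P.rep = 0 ∧ d ⬝ᵥ P.rep = 0 := by
  obtain ⟨a, ha⟩ : ∃ a, P.rep a ≠ 0 := by
    by_contra hcon
    push Not at hcon
    exact P.rep_nonzero (funext hcon)
  set v := P.rep
  fin_cases a
  · refine ⟨![-v 1, v 0, 0], ![-v 2, 0, v 0], ?_, ?_, ?_⟩
    · rw [LinearIndependent.pair_iff]
      intro s t h
      have e1 : s * v 0 + t * 0 = 0 := congrFun h 1
      have e2 : s * 0 + t * v 0 = 0 := congrFun h 2
      rw [mul_zero, add_zero] at e1
      rw [mul_zero, zero_add] at e2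
      exact ⟨(mul_eq_zero.1 e1).resolve_right ha, (mul_eq_zero.1 e2).resolve_right ha⟩
    · rw [Pnt_dot]
      change -v 1 * v 0 + v 0 * v 1 + 0 * v 2 = 0
      ring
    · rw [Pnt_dot]
      change -v 2 * v 0 + 0 * v 1 + v 0 * v 2 = 0
      ring
  · refine ⟨![v 1, -v 0, 0], ![0, -v 2, v 1], ?_, ?_, ?_⟩
    · rw [LinearIndependent.pair_iff]
      intro s t h
      have e1 : s * v 1 + t * 0 = 0 := congrFun h 0
      have e2 : s * 0 + t * v 1 = 0 := congrFun h 2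
      rw [mul_zero, add_zero] at e1
      rw [mul_zero, zero_add] at e2
      exact ⟨(mul_eq_zero.1 e1).resolve_right ha, (mul_eq_zero.1 e2).resolve_right ha⟩
    · rw [Pnt_dot]
      change v 1 * v 0 + -v 0 * v 1 + 0 * v 2 = 0
      ring
    · rw [Pnt_dot]
      change 0 * v 0 + -v 2 * v 1 + v 1 * v 2 = 0
      ring
  · refine ⟨![v 2, 0, -v 0], ![0, v 2, -v 1], ?_, ?_, ?_⟩
    · rw [LinearIndependent.pair_iff]
      intro s t h
      have e1 : s * v 2 + t * 0 = 0 := congrFun h 0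
      have e2 : s * 0 + t * v 2 = 0 := congrFun h 1
      rw [mul_zero, add_zero] at e1
      rw [mul_zero, zero_add] at e2
      exact ⟨(mul_eq_zero.1 e1).resolve_right ha, (mul_eq_zero.1 e2).resolve_right ha⟩
    · rw [Pnt_dot]
      change v 2 * v 0 + 0 * v 1 + -v 0 * v 2 = 0
      ring
    · rw [Pnt_dot]
      change 0 * v 0 + v 2 * v 1 + -v 1 * v 2 = 0
      ring

private theorem Pnt_two (P : Pt k) (c d e : Fin 3 → k) (h : LinearIndependent k ![c, d])
    (h1 : c ⬝ᵥ P.rep = 0) (h2 : d ⬝ᵥ P.rep = 0) (h3 : e ⬝ᵥ P.rep = 0) :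
    ∃ x y : k, e = x • c + y • d := by
  have hdet : (Matrix.of ![c, d, e]).det = 0 := by
    rw [← Matrix.exists_mulVec_eq_zero_iff]
    refine ⟨P.rep, P.rep_nonzero, ?_⟩
    funext i
    fin_cases i
    · exact h1
    · exact h2
    · exact h3
  rw [← Matrix.exists_vecMul_eq_zero_iff] at hdet
  obtain ⟨u, hu0, hu⟩ := hdet
  have hu' : ∀ j, u 0 * c j + u 1 * d j + u 2 * e j = 0 := by
    intro j
    have h4 := congrFun hu j
    simp only [Matrix.vecMul, dotProduct, Fin.sum_univ_three, Matrix.of_apply, Pi.zero_apply] at h4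
    exact h4
  have hu2 : u 2 ≠ 0 := by
    intro h0
    apply hu0
    rw [LinearIndependent.pair_iff] at h
    obtain ⟨a0, a1⟩ := h (u 0) (u 1) (by
      funext j
      have h4 := hu' j
      rw [h0, zero_mul, add_zero] at h4
      exact h4)
    funext i
    fin_cases i
    · exact a0
    · exact a1
    · exact h0
  refine ⟨-(u 0 / u 2), -(u 1 / u 2), ?_⟩
  funext j
  have h4 := hu' j
  rw [Pi.add_apply, Pi.smul_apply, Pi.smul_apply, smul_eq_mul, smul_eq_mul]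
  field_simp
  linear_combination h4

private theorem Pnt_three (P Q : Pt k) (h : P ≠ Q) : ∃ c : Fin 3 → k, c ≠ 0 ∧ c ⬝ᵥ P.rep = 0 ∧
    c ⬝ᵥ Q.rep = 0 ∧ ∀ d : Fin 3 → k, d ⬝ᵥ P.rep = 0 → d ⬝ᵥ Q.rep = 0 → ∃ x : k, d = x • c := by
  have hc : Pnt_cr P.rep Q.rep ≠ 0 := by
    intro h0
    obtain ⟨x, hx⟩ := Pnt_par P.rep_nonzero (Pnt_cr_eq_zero.1 h0)
    exact h (Pnt_eq x hx)
  refine ⟨Pnt_cr P.rep Q.rep, hc, ?_, ?_, ?_⟩
  · rw [Pnt_dot]
    simp only [Pnt_cr, Matrix.cons_val]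
    ring
  · rw [Pnt_dot]
    simp only [Pnt_cr, Matrix.cons_val]
    ring
  · intro d h1 h2
    rw [dotProduct_comm] at h1 h2
    exact Pnt_par hc (Pnt_z_symm (Pnt_bac h1 h2))

end

/-- Points and forms. -/
theorem tPnt : PntStmt := by
  intro k _
  refine ⟨Pnt_one, Pnt_two, Pnt_three, ?_, Pnt_five⟩
  intro P Q h
  by_contra hcon
  push Not at hcon
  obtain ⟨c, d, hli, h1, h2⟩ := Pnt_five P
  exact h (Pnt_one c d P Q hli h1 h2 (hcon c h1) (hcon d h2))

end Pool.Agent.Lib.MP_4318ff_ag
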