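import Pool.Agent.Lib.MP_4318ff_ag.Spec.LA

set_option autoImplicit false

namespace Pool.Agent.Lib.MP_4318ff_ag

/-- Module Avd: a form through `P₀` and not through finitely many other points. -/
theorem tAvd (h1 : PntStmt) : AvdStmt := by
  classical
  intro k _ _ P₀ S hP₀
  obtain ⟨hPnt1, _, _, _, hPnt5⟩ := h1 k
  obtain ⟨c, d, hind, hc, hd⟩ := hPnt5 P₀
  obtain ⟨x, hx⟩ := Infinite.exists_notMem_finset
    (S.image fun P : Pt k => -(c ⬝ᵥ P.rep) / (d ⬝ᵥ P.rep))
  refine ⟨c + x • d, ?_, ?_⟩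
  · rw [add_dotProduct, smul_dotProduct, hc, hd, smul_zero, add_zero]
  · intro P hP h0
    rw [add_dotProduct, smul_dotProduct, smul_eq_mul] at h0
    by_cases hdP : d ⬝ᵥ P.rep = 0
    · rw [hdP, mul_zero, add_zero] at h0
      apply hP₀
      rw [hPnt1 c d P₀ P hind hc hd h0 hdP]
      exact hP
    · apply hx
      rw [Finset.mem_image]
      refine ⟨P, hP, ?_⟩
      rw [div_eq_iff hdP]
      linear_combination -h0

end Pool.Agent.Lib.MP_4318ff_ag
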