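import Pool.Agent.Lib.MP_4318ff_ag.Spec.LA

set_option autoImplicit false

namespace Pool.Agent.Lib.MP_4318ff_ag

private def Dua_fn {k : Type} [Field k] {ι κ : Type} [Fintype ι] [Fintype κ] (w : ι → κ → k) :
    (ι → κ → k) →ₗ[k] k where
  toFun ρ := ∑ P, ∑ i, w P i * ρ P i
  map_add' := by intro ρ σ; simp [mul_add, Finset.sum_add_distrib]
  map_smul' := by intro c ρ; simp [Finset.mul_sum, mul_left_comm]

private theorem Dua_fn_apply {k : Type} [Field k] {ι κ : Type} [Fintype ι] [Fintype κ] (w ρ : ι → κ → k) :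
    Dua_fn w ρ = ∑ P, ∑ i, w P i * ρ P i := rfl

private theorem Dua_fn_single {k : Type} [Field k] {ι κ : Type} [Fintype ι] [Fintype κ] [DecidableEq ι]
    [DecidableEq κ] (w : ι → κ → k) (P : ι) (i : κ) :
    Dua_fn w (fun Q j => if Q = P ∧ j = i then 1 else 0) = w P i := by
  rw [Dua_fn_apply, Finset.sum_eq_single P, Finset.sum_eq_single i]
  · simp
  · intro j _ hj
    simp [hj]
  · intro h
    exact absurd (Finset.mem_univ _) h
  · intro Q _ hQ
    apply Finset.sum_eq_zero
    intro j _
    simp [hQ]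
  · intro h
    exact absurd (Finset.mem_univ _) h

private theorem Dua_fn_single' {k : Type} [Field k] {ι κ : Type} [Fintype ι] [Fintype κ] [DecidableEq ι]
    [DecidableEq κ] (ρ : ι → κ → k) (P : ι) (i : κ) :
    Dua_fn (fun Q j => if Q = P ∧ j = i then 1 else 0) ρ = ρ P i := by
  rw [← Dua_fn_single ρ P i, Dua_fn_apply, Dua_fn_apply]
  apply Finset.sum_congr rfl
  intro Q _
  apply Finset.sum_congr rfl
  intro j _
  rw [mul_comm]

private theorem Dua_abs {k : Type} [Field k] {ι κ : Type} [Fintype ι] [Fintype κ] (A : ι → κ → Prop)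
    (ℓ : κ → Fin 3 → k) (Z : κ → Prop) (x : ι → κ → k)
    (h : ∀ ρ : ι → κ → k, (∀ P i, ¬ A P i → ρ P i = 0) → (∀ P, ∀ a, ∑ i, ρ P i * ℓ i a = 0) →
      (∀ i, ¬ Z i → ∑ P, ρ P i = 0) → ∑ P, ∑ i, ρ P i * x P i = 0) :
    ∃ (v : ι → Fin 3 → k) (s : κ → k), (∀ i, Z i → s i = 0) ∧
      ∀ P i, A P i → x P i = ∑ a, ℓ i a * v P a + s i := by
  classical
  let L : (ι × κ) ⊕ ((ι × Fin 3) ⊕ κ) → ((ι → κ → k) →ₗ[k] k) := fun t =>
    match t with
    | Sum.inl q => if A q.1 q.2 then 0 else Dua_fn (fun Q j => if Q = q.1 ∧ j = q.2 then 1 else 0)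
    | Sum.inr (Sum.inl q) => Dua_fn (fun Q j => if Q = q.1 then ℓ j q.2 else 0)
    | Sum.inr (Sum.inr i) => if Z i then 0 else Dua_fn (fun _ j => if j = i then 1 else 0)
  have hL1 : ∀ P i, L (Sum.inl (P, i)) =
      if A P i then 0 else Dua_fn (fun Q j => if Q = P ∧ j = i then 1 else 0) := fun _ _ => rfl
  have hL2 : ∀ P a, L (Sum.inr (Sum.inl (P, a))) = Dua_fn (fun Q j => if Q = P then ℓ j a else 0) :=
    fun _ _ => rfl
  have hL3 : ∀ i, L (Sum.inr (Sum.inr i)) =
      if Z i then 0 else Dua_fn (fun _ j => if j = i then 1 else 0) := fun _ => rfl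
  have hmem : Dua_fn x ∈ Submodule.span k (Set.range L) := by
    apply mem_span_of_iInf_ker_le_ker
    intro ρ hρ
    rw [Submodule.mem_iInf] at hρ
    rw [LinearMap.mem_ker, Dua_fn_apply]
    have h0 := h ρ ?_ ?_ ?_
    · rw [← h0]
      apply Finset.sum_congr rfl
      intro Q _
      apply Finset.sum_congr rfl
      intro j _
      rw [mul_comm]
    · intro P i hPi
      have := hρ (Sum.inl (P, i))
      rw [LinearMap.mem_ker, hL1, if_neg hPi, Dua_fn_single'] at this
      exact this
    · intro P a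
      have := hρ (Sum.inr (Sum.inl (P, a)))
      rw [LinearMap.mem_ker, hL2, Dua_fn_apply, Finset.sum_eq_single P] at this
      · rw [← this]
        apply Finset.sum_congr rfl
        intro j _
        rw [if_pos rfl, mul_comm]
      · intro Q _ hQ
        apply Finset.sum_eq_zero
        intro j _
        rw [if_neg hQ, zero_mul]
      · intro hn
        exact absurd (Finset.mem_univ _) hn
    · intro i hi
      have := hρ (Sum.inr (Sum.inr i))
      rw [LinearMap.mem_ker, hL3, if_neg hi, Dua_fn_apply] at this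
      rw [← this]
      apply Finset.sum_congr rfl
      intro Q _
      rw [Finset.sum_eq_single i]
      · rw [if_pos rfl, one_mul]
      · intro j _ hj
        rw [if_neg hj, zero_mul]
      · intro hn
        exact absurd (Finset.mem_univ _) hn
  rw [Submodule.mem_span_range_iff_exists_fun] at hmem
  obtain ⟨c, hc⟩ := hmem
  refine ⟨fun P a => c (Sum.inr (Sum.inl (P, a))), fun i => if Z i then 0 else c (Sum.inr (Sum.inr i)),
    fun i hi => if_pos hi, ?_⟩
  intro P i hPi
  have e := congrArg (fun f : (ι → κ → k) →ₗ[k] k => f (fun Q j => if Q = P ∧ j = i then 1 else 0)) hc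
  simp only [LinearMap.sum_apply, LinearMap.smul_apply, smul_eq_mul, Dua_fn_single] at e
  rw [← e, Fintype.sum_sum_type, Fintype.sum_sum_type, Fintype.sum_prod_type, Fintype.sum_prod_type]
  have e1 : ∑ Q, ∑ j, c (Sum.inl (Q, j)) * (L (Sum.inl (Q, j))) (fun Q j => if Q = P ∧ j = i then 1 else 0)
      = 0 := by
    apply Finset.sum_eq_zero
    intro Q _
    apply Finset.sum_eq_zero
    intro j _
    rw [hL1]
    by_cases hA : A Q j
    · rw [if_pos hA, LinearMap.zero_apply, mul_zero]
    · rw [if_neg hA, Dua_fn_single, if_neg, mul_zero]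
      rintro ⟨h1, h2⟩
      apply hA
      rw [← h1, ← h2]
      exact hPi
  have e2 : ∑ Q, ∑ a, c (Sum.inr (Sum.inl (Q, a))) *
      (L (Sum.inr (Sum.inl (Q, a)))) (fun Q j => if Q = P ∧ j = i then 1 else 0) =
      ∑ a, ℓ i a * c (Sum.inr (Sum.inl (P, a))) := by
    rw [Finset.sum_eq_single P]
    · apply Finset.sum_congr rfl
      intro a _
      rw [hL2, Dua_fn_single, if_pos rfl, mul_comm]
    · intro Q _ hQ
      apply Finset.sum_eq_zero
      intro a _
      rw [hL2, Dua_fn_single, if_neg (Ne.symm hQ), mul_zero]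
    · intro hn
      exact absurd (Finset.mem_univ _) hn
  have e3 : ∑ j, c (Sum.inr (Sum.inr j)) *
      (L (Sum.inr (Sum.inr j))) (fun Q j => if Q = P ∧ j = i then 1 else 0) =
      if Z i then 0 else c (Sum.inr (Sum.inr i)) := by
    rw [Finset.sum_eq_single i]
    · rw [hL3]
      by_cases hZ : Z i
      · rw [if_pos hZ, if_pos hZ, LinearMap.zero_apply, mul_zero]
      · rw [if_neg hZ, if_neg hZ, Dua_fn_single, if_pos rfl, mul_one]
    · intro j _ hj
      rw [hL3]
      by_cases hZ : Z j
      · rw [if_pos hZ, LinearMap.zero_apply, mul_zero]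
      · rw [if_neg hZ, Dua_fn_single, if_neg (Ne.symm hj), mul_zero]
    · intro hn
      exact absurd (Finset.mem_univ _) hn
  rw [e1, e2, e3, zero_add]

/-- Module Dua: duality. -/
theorem tDua : DuaStmt := by
  classical
  intro k _ r C S Z x h
  obtain ⟨v, s, hs, hx⟩ := Dua_abs (k := k) (ι := {P : Pt k // P ∈ S}) (κ := Fin r)
    (fun P i => i ∈ C.through P.1) C.ℓ (fun i => i ∈ Z) (fun P i => x P.1 i) (by
      intro ρ h1 h2 h3
      have key := h (fun P i => if hP : P ∈ S then ρ ⟨P, hP⟩ i else 0) ?_ ?_ ?_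
      · rw [← Finset.sum_coe_sort] at key
        rw [← key]
        apply Finset.sum_congr rfl
        intro P _
        apply Finset.sum_congr rfl
        intro i _
        rw [dif_pos P.2]
      · intro P hP
        funext i
        rw [dif_neg hP]
        rfl
      · intro P hP
        refine ⟨?_, ?_⟩
        · intro i hi
          change (if hP : P ∈ S then ρ ⟨P, hP⟩ i else 0) = 0
          rw [dif_pos hP]
          exact h1 ⟨P, hP⟩ i hi
        · funext a
          have := h2 ⟨P, hP⟩ a
          rw [Finset.sum_apply, Pi.zero_apply]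
          refine Eq.trans ?_ this
          apply Finset.sum_congr rfl
          intro i _
          change (if hP : P ∈ S then ρ ⟨P, hP⟩ i else 0) * C.ℓ i a = ρ ⟨P, hP⟩ i * C.ℓ i a
          rw [dif_pos hP]
      · intro i hi
        have := h3 i hi
        rw [← this, ← Finset.sum_coe_sort]
        apply Finset.sum_congr rfl
        intro P _
        rw [dif_pos P.2])
  refine ⟨fun P => if hP : P ∈ S then v ⟨P, hP⟩ else 0, s, hs, ?_⟩
  intro P hP i hi
  have e := hx ⟨P, hP⟩ i hi
  change x P i = C.ℓ i ⬝ᵥ (if hP : P ∈ S then v ⟨P, hP⟩ else 0) + s i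
  rw [dif_pos hP]
  exact e

end Pool.Agent.Lib.MP_4318ff_ag
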