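import Pool.Agent.Lib.MP_4318ff_ag.Spec.LA

set_option autoImplicit false

namespace Pool.Agent.Lib.MP_4318ff_ag

/-- Module Eig: eigenforms of all lines through a point. -/
theorem tEig (h1 : PntStmt) (h2 : BasStmt) : EigStmt := by
  intro k _ r C P hP B μ hμ
  obtain ⟨_, hPnt2, _, _, _⟩ := h1 k
  obtain ⟨_, hB2, _, hB4, _, _⟩ := h2 k r C
  have key : ∀ i ∈ C.through P, ∀ j ∈ C.through P, μ i = μ j := by
    intro i hi j hj
    by_cases hij : i = j
    · rw [hij]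
    obtain ⟨m, hm, hmi, hmj⟩ := hB4 P hP i j
    obtain ⟨x, y, hx, hy, hxy⟩ := hB2 P i j m hi hj hm hij (Ne.symm hmi) (Ne.symm hmj)
    have e1 : (x * (μ m - μ i)) • C.ℓ i + (y * (μ m - μ j)) • C.ℓ j = 0 := by
      have e0 := hμ m hm
      rw [hxy, Matrix.add_vecMul, Matrix.smul_vecMul, Matrix.smul_vecMul, hμ i hi, hμ j hj] at e0
      have e2 : (x * (μ m - μ i)) • C.ℓ i + (y * (μ m - μ j)) • C.ℓ j =
          μ m • (x • C.ℓ i + y • C.ℓ j) - (x • μ i • C.ℓ i + y • μ j • C.ℓ j) := by module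
      rw [e2, e0, sub_self]
    have hind := C.indep i j hij
    rw [LinearIndependent.pair_iff] at hind
    obtain ⟨a1, a2⟩ := hind _ _ e1
    have b1 : μ m - μ i = 0 := (mul_eq_zero.mp a1).resolve_left hx
    have b2 : μ m - μ j = 0 := (mul_eq_zero.mp a2).resolve_left hy
    rw [← sub_eq_zero.mp b1, ← sub_eq_zero.mp b2]
  refine ⟨key, ?_⟩
  intro i hi c hc
  obtain ⟨m, hm, hmi, _⟩ := hB4 P hP i i
  have hind := C.indep i m (Ne.symm hmi)
  obtain ⟨x, y, hxy⟩ := hPnt2 P (C.ℓ i) (C.ℓ m) c hind hi hm hc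
  rw [hxy, Matrix.add_vecMul, Matrix.smul_vecMul, Matrix.smul_vecMul, hμ i hi, hμ m hm, key m hm i hi]
  module

end Pool.Agent.Lib.MP_4318ff_ag
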