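import Pool.Agent.Lib.MP_4318ff_ag.Spec.LA

/-!
# MP_4318ff_ag: five eigenvectors of a 3 x 3 matrix
-/

set_option autoImplicit false

namespace Pool.Agent.Lib.MP_4318ff_ag

open Polynomial

private theorem Epl_aev {k V : Type} [Field k] [AddCommGroup V] [Module k V] (f : Module.End k V)
    (p : k[X]) {v : V} {m : k} (h : f v = m • v) : (aeval f p) v = p.eval m • v := by
  induction p using Polynomial.induction_on' with
  | add p q hp hq => rw [map_add, LinearMap.add_apply, hp, hq, eval_add, add_smul]
  | monomial n a =>
    rw [aeval_monomial, eval_monomial]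
    have : ∀ n : ℕ, (f ^ n) v = m ^ n • v := by
      intro n
      induction n with
      | zero => simp
      | succ n ih => rw [pow_succ', Module.End.mul_apply, ih, map_smul, h, smul_smul, pow_succ]
    rw [Module.End.mul_apply, this, Module.algebraMap_end_apply, smul_smul]

private theorem Epl_fib {k V ι : Type} [Field k] [AddCommGroup V] [Module k V] [DecidableEq k]
    [DecidableEq ι] (f : Module.End k V) (s : Finset ι) (v : ι → V) (μ : ι → k)
    (hv : ∀ i ∈ s, f (v i) = μ i • v i) (x : ι → k) (h0 : ∑ i ∈ s, x i • v i = 0) (a : k) :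
    ∑ i ∈ s.filter (fun i => μ i = a), x i • v i = 0 := by
  set p : k[X] := ∏ b ∈ (s.image μ).erase a, (X - C b) with hp
  have hpa : p.eval a ≠ 0 := by
    rw [hp, eval_prod, Finset.prod_ne_zero_iff]
    intro b hb
    rw [eval_sub, eval_X, eval_C, sub_ne_zero]
    exact (Finset.ne_of_mem_erase hb).symm
  have h1 : (aeval f p) (∑ i ∈ s, x i • v i) =
      p.eval a • ∑ i ∈ s.filter (fun i => μ i = a), x i • v i := by
    rw [map_sum, Finset.smul_sum, Finset.sum_filter]
    refine Finset.sum_congr rfl fun i hi => ?_
    rw [map_smul, Epl_aev f p (hv i hi)]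
    split_ifs with h
    · rw [h, smul_comm]
    · have : p.eval (μ i) = 0 := by
        rw [hp, eval_prod]
        refine Finset.prod_eq_zero (Finset.mem_erase.2 ⟨h, Finset.mem_image_of_mem _ hi⟩) ?_
        rw [eval_sub, eval_X, eval_C, sub_self]
      rw [this, zero_smul, smul_zero]
  rw [h0, map_zero] at h1
  exact (smul_eq_zero.1 h1.symm).resolve_left hpa

theorem tEpl : EplStmt := by
  classical
  intro k _ r v J B μ hJ hli hB
  let f : Module.End k (Fin 3 → k) := B.vecMulLinear
  have hf : ∀ i ∈ J, f (v i) = μ i • v i := hB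
  -- a set with small fibres has at most three elements
  have key : ∀ s ⊆ J, (∀ a, (s.filter fun i => μ i = a).card ≤ 2) → s.card ≤ 3 := by
    intro s hs hc
    have hlin : LinearIndepOn k v (s : Set (Fin r)) := by
      rw [linearIndepOn_finset_iff]
      intro x hx i hi
      have h1 := Epl_fib f s v μ (fun i hi => hf i (hs hi)) x hx (μ i)
      have hi' : i ∈ s.filter fun j => μ j = μ i := Finset.mem_filter.2 ⟨hi, rfl⟩
      have h2 := hc (μ i)
      obtain ⟨j, hj, hij⟩ : ∃ j ∈ J, j ≠ i := Finset.exists_mem_ne (by omega) i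
      by_cases h3 : ∃ j ∈ s.filter fun j => μ j = μ i, j ≠ i
      · obtain ⟨j, hj, hij⟩ := h3
        have h4 : (s.filter fun j => μ j = μ i) = {i, j} := by
          symm
          apply Finset.eq_of_subset_of_card_le
          · intro l hl
            rcases Finset.mem_insert.1 hl with h | h
            · rw [h]; exact hi'
            · rw [Finset.mem_singleton.1 h]; exact hj
          · rw [Finset.card_pair hij.symm]; exact h2
        rw [h4, Finset.sum_pair hij.symm] at h1
        exact (LinearIndependent.pair_iff.1 (hli i (hs hi) j (hs (Finset.mem_filter.1 hj).1)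
          hij.symm) (x i) (x j) h1).1
      · push Not at h3
        have h4 : (s.filter fun j => μ j = μ i) = {i} := by
          ext l
          rw [Finset.mem_singleton]
          exact ⟨h3 l, fun h => by rw [h]; exact hi'⟩
        rw [h4, Finset.sum_singleton] at h1
        have h5 := LinearIndependent.pair_iff.1 (hli i (hs hi) j hj hij.symm) (x i) 0
          (by rw [h1, zero_smul, add_zero])
        exact h5.1
    have := LinearIndependent.fintype_card_le_finrank hlin
    simpa using this
  obtain ⟨s, hs, hs4⟩ := Finset.exists_subset_card_eq (s := J) (n := 4) (by omega)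
  obtain ⟨c, hc⟩ : ∃ c, 2 < (s.filter fun i => μ i = c).card := by
    by_contra h
    push Not at h
    have := key s hs h
    omega
  obtain ⟨i1, hi1, i2, hi2, h12⟩ := Finset.one_lt_card.1 (by omega :
    1 < (s.filter fun i => μ i = c).card)
  rw [Finset.mem_filter] at hi1 hi2
  by_cases h : (J.filter fun i => μ i ≠ c).card ≤ 1
  · rw [Finset.card_le_one] at h
    by_cases h' : ∃ j ∈ J, μ j ≠ c
    · obtain ⟨j, hj, hjc⟩ := h'
      refine ⟨c, j, hj, fun l hl hlj => ?_⟩
      by_contra hlc
      exact hlj (h l (Finset.mem_filter.2 ⟨hl, hlc⟩) j (Finset.mem_filter.2 ⟨hj, hjc⟩))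
    · push Not at h'
      exact ⟨c, i1, hs hi1.1, fun l hl _ => h' l hl⟩
  · exfalso
    push Not at h
    obtain ⟨j1, hj1, j2, hj2, hj⟩ := Finset.one_lt_card.1 h
    rw [Finset.mem_filter] at hj1 hj2
    have e1 : i1 ≠ j1 := fun h => hj1.2 (h ▸ hi1.2)
    have e2 : i1 ≠ j2 := fun h => hj2.2 (h ▸ hi1.2)
    have e3 : i2 ≠ j1 := fun h => hj1.2 (h ▸ hi2.2)
    have e4 : i2 ≠ j2 := fun h => hj2.2 (h ▸ hi2.2)
    have hsub : ({i1, i2, j1, j2} : Finset (Fin r)) ⊆ J := by
      intro l hl
      simp only [Finset.mem_insert, Finset.mem_singleton] at hl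
      rcases hl with h | h | h | h
      · rw [h]; exact hs hi1.1
      · rw [h]; exact hs hi2.1
      · rw [h]; exact hj1.1
      · rw [h]; exact hj2.1
    have hcard : ({i1, i2, j1, j2} : Finset (Fin r)).card = 4 := by
      rw [Finset.card_insert_of_notMem (by simp [h12, e1, e2]),
        Finset.card_insert_of_notMem (by simp [e3, e4]), Finset.card_pair hj]
    have := key _ hsub fun a => by
      by_cases ha : a = c
      · refine (Finset.card_le_card (t := {i1, i2}) fun l hl => ?_).trans Finset.card_le_two
        rw [Finset.mem_filter] at hl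
        simp only [Finset.mem_insert, Finset.mem_singleton] at hl ⊢
        rcases hl.1 with h | h | h | h
        · exact Or.inl h
        · exact Or.inr h
        · exact absurd (by rw [← h, hl.2, ha]) hj1.2
        · exact absurd (by rw [← h, hl.2, ha]) hj2.2
      · refine (Finset.card_le_card (t := {j1, j2}) fun l hl => ?_).trans Finset.card_le_two
        rw [Finset.mem_filter] at hl
        simp only [Finset.mem_insert, Finset.mem_singleton] at hl ⊢
        rcases hl.1 with h | h | h | h
        · exact absurd (by rw [← hl.2, h, hi1.2]) ha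
        · exact absurd (by rw [← hl.2, h, hi2.2]) ha
        · exact Or.inl h
        · exact Or.inr h
    omega

end Pool.Agent.Lib.MP_4318ff_ag
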