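import Pool.Agent.Lib.MP_4318ff_ag.Spec.LA

/-!
# MP_4318ff_ag, block LA, module Exl: extension of the coefficients
-/

set_option autoImplicit false

namespace Pool.Agent.Lib.MP_4318ff_ag

/-- A vector is the sum of its coordinates over a finite set which contains the support. -/
private theorem Exl_sum {k E ι : Type} [Field k] [AddCommGroup E] [Module k E]
    (b : Module.Basis ι k E) (v : E) (Q : Finset ι) (h : (b.repr v).support ⊆ Q) :
    v = ∑ q ∈ Q, (b.repr v q) • b q := by
  conv_lhs => rw [← b.linearCombination_repr v, Finsupp.linearCombination_apply]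
  exact Finsupp.sum_of_support_subset _ h _ (fun q _ => zero_smul k _)

theorem tExl : ExlStmt := by
  intro k _ X Y _ _ 𝒜 N h E _ _ t ht
  classical
  let b := Module.Basis.ofVectorSpace k E
  have key : ∀ q, ∃ y : Y → k, ∀ x, b.repr (t x) q = ∑ j, N x j * y j := by
    intro q
    refine h (fun x => b.repr (t x) q) fun α hα => ?_
    have h1 := congrArg (b.coord q) (ht α hα)
    rw [map_sum, map_zero] at h1
    simpa using h1
  choose y hy using key
  let Q := Finset.univ.biUnion fun x : X => (b.repr (t x)).support
  refine ⟨fun j => ∑ q ∈ Q, y q j • b q, fun x => ?_⟩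
  have h2 : (b.repr (t x)).support ⊆ Q := fun q hq =>
    Finset.mem_biUnion.2 ⟨x, Finset.mem_univ x, hq⟩
  rw [Exl_sum b (t x) Q h2]
  simp only [Finset.smul_sum, smul_smul]
  rw [Finset.sum_comm]
  refine Finset.sum_congr rfl fun q _ => ?_
  rw [hy q x, Finset.sum_smul]

end Pool.Agent.Lib.MP_4318ff_ag
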