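import Pool.Agent.Lib.MP_4318ff_ag.Spec.LA

/-!
# MP_4318ff_ag, module L4k: LA4 over `k`
-/

set_option autoImplicit false

namespace Pool.Agent.Lib.MP_4318ff_ag

open scoped LinearAlgebra.Projectivization

private theorem L4k_base (h2 : SpnStmt) (k : Type) [Field k] (r : ℕ) (C : Config k r) (hC : C.InfRigid) (hr : 6 ≤ r)
    (P₀ : Pt k) (S : Finset (Pt k)) (hMS : ∀ P ∈ C.M, P ≠ P₀ → P ∈ S) (t : Pt k → Fin r → k)
    (H : ∀ T ∈ C.M, ∀ ρ : Pt k → Fin r → k, (∀ P, P ∉ S → ρ P = 0) → (∀ P ∈ S, C.IsRel P (ρ P)) →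
      (∀ i, i ∉ C.through T → ∑ P ∈ S, ρ P i = 0) →
      ∑ P ∈ S, ∑ i, (ρ P i * (C.ℓ i ⬝ᵥ T.rep)) * t P i = 0) :
    ∃ P₁ : Pt k, (∀ P ∈ C.M, P ≠ P₁ → P ∈ S) ∧
      (P₁ ∉ S → ∀ ρ : Pt k → Fin r → k, (∀ P, P ∉ S → ρ P = 0) → (∀ P ∈ S, C.IsRel P (ρ P)) →
        (∀ i, i ∉ C.through P₁ → ∑ P ∈ S, ρ P i = 0) →
        ∑ P ∈ S, ∑ i, ρ P i * ((t P i • C.ℓ i) ⬝ᵥ P₁.rep) = 0) := by
  by_cases h0 : P₀ ∈ C.M
  · refine ⟨P₀, hMS, ?_⟩
    intro _ ρ hρ1 hρ2 hρ3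
    rw [← H P₀ h0 ρ hρ1 hρ2 hρ3]
    refine Finset.sum_congr rfl ?_
    intro P _
    refine Finset.sum_congr rfl ?_
    intro i _
    rw [smul_dotProduct, smul_eq_mul]
    ring
  · have hc : (Pi.single 0 1 : Fin 3 → k) ≠ 0 := by
      intro h
      have := congrFun h 0
      simp at this
    obtain ⟨P₁, hP₁, hne, -⟩ := (h2 k r C hC hr).1 P₀ (Pi.single 0 1) hc
    refine ⟨P₁, ?_, ?_⟩
    · intro P hP _
      exact hMS P hP (fun h => h0 (h ▸ hP))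
    · intro hn
      exact absurd (hMS P₁ hP₁ hne) hn

private theorem L4k_full (h2 : SpnStmt) (k : Type) [Field k] (r : ℕ) (C : Config k r) (hC : C.InfRigid) (hr : 6 ≤ r)
    (P₀ : Pt k) (S : Finset (Pt k)) (t : Pt k → Fin r → k)
    (H : ∀ T ∈ C.M, ∀ ρ : Pt k → Fin r → k, (∀ P, P ∉ S → ρ P = 0) → (∀ P ∈ S, C.IsRel P (ρ P)) →
      (∀ i, i ∉ C.through T → ∑ P ∈ S, ρ P i = 0) →
      ∑ P ∈ S, ∑ i, (ρ P i * (C.ℓ i ⬝ᵥ T.rep)) * t P i = 0)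
    (ρ : Pt k → Fin r → k) (hρ1 : ∀ P, P ∉ S → ρ P = 0) (hρ2 : ∀ P ∈ S, C.IsRel P (ρ P))
    (hρ3 : ∀ i, ∑ P ∈ S, ρ P i = 0) (y : Fin 3 → k) :
    ∑ P ∈ S, ∑ i, ρ P i * ((t P i • C.ℓ i) ⬝ᵥ y) = 0 := by
  let b : Fin 3 → k := ∑ P ∈ S, ∑ i, (ρ P i * t P i) • C.ℓ i
  have hb : ∀ z : Fin 3 → k, b ⬝ᵥ z = ∑ P ∈ S, ∑ i, ρ P i * ((t P i • C.ℓ i) ⬝ᵥ z) := by
    intro z
    rw [sum_dotProduct]
    refine Finset.sum_congr rfl ?_
    intro P _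
    rw [sum_dotProduct]
    refine Finset.sum_congr rfl ?_
    intro i _
    rw [smul_dotProduct, smul_dotProduct, smul_eq_mul, smul_eq_mul]
    ring
  have hb0 : b = 0 := by
    by_contra hne
    obtain ⟨T, hT, -, hbT⟩ := (h2 k r C hC hr).1 P₀ b hne
    apply hbT
    rw [hb, ← H T hT ρ hρ1 hρ2 (fun i _ => hρ3 i)]
    refine Finset.sum_congr rfl ?_
    intro P _
    refine Finset.sum_congr rfl ?_
    intro i _
    rw [smul_dotProduct, smul_eq_mul]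
    ring
  rw [← hb, hb0, zero_dotProduct]

/-- Module L4k. -/
theorem tL4k (h1 : EigStmt) (h2 : SpnStmt) (h3 : CorStmt) : L4kStmt := by
  intro k _ r C hC hr P₀ S hSM hMS t H
  obtain ⟨P₁, hP1, hP1'⟩ := L4k_base h2 k r C hC hr P₀ S hMS t H
  obtain ⟨V, s, hVs⟩ := h3 k r C hC P₁ S hSM hP1 (fun P i => t P i • C.ℓ i)
    (by
      intro P _ i hi
      have hi' : C.ℓ i ⬝ᵥ P.rep = 0 := hi
      show (t P i • C.ℓ i) ⬝ᵥ P.rep = 0
      rw [smul_dotProduct, hi', smul_zero])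
    (fun ρ hρ1 hρ2 hρ3 y => L4k_full h2 k r C hC hr P₀ S t H ρ hρ1 hρ2 hρ3 y)
    hP1'
  classical
  refine ⟨s, fun P => if h : (C.through P).Nonempty then t P h.some - s h.some else 0, ?_⟩
  intro P hP i hi
  have hne : (C.through P).Nonempty := ⟨i, hi⟩
  have hE := (h1 k r C P (hSM P hP) (V P) (fun i => t P i - s i) (by
    intro j hj
    have h := hVs P hP j hj
    have h' : t P j • C.ℓ j = Matrix.vecMul (C.ℓ j) (V P) + s j • C.ℓ j := h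
    show Matrix.vecMul (C.ℓ j) (V P) = (t P j - s j) • C.ℓ j
    rw [sub_smul, h', add_sub_cancel_right])).1 i hi hne.some hne.some_mem
  have hE' : t P i - s i = t P hne.some - s hne.some := hE
  show t P i = s i + (if h : (C.through P).Nonempty then t P h.some - s h.some else 0)
  rw [dif_pos hne, ← hE']
  ring

end Pool.Agent.Lib.MP_4318ff_ag
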