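import Pool.Agent.Lib.MP_4318ff_ag.Spec.LA

/-!
# MP_4318ff_ag, module LA3: formality over a vector space `E`
-/

set_option autoImplicit false

namespace Pool.Agent.Lib.MP_4318ff_ag

open scoped LinearAlgebra.Projectivization

private theorem LA3_ann {k : Type} [Field k] {r : ℕ} (C : Config k r) {E : Type} [AddCommGroup E] [Module k E]
    (t : Fin r → E) (P : Pt k) (α : Fin r → k) (hα : C.IsRel P α) (w : Fin 3 → E)
    (hw : ∀ i ∈ C.through P, t i = dotE (C.ℓ i) w) : ∑ i, α i • t i = 0 := by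
  have h1 : ∑ i, α i • t i = ∑ i, α i • dotE (C.ℓ i) w := by
    refine Finset.sum_congr rfl ?_
    intro i _
    by_cases hi : i ∈ C.through P
    · rw [hw i hi]
    · rw [hα.1 i hi, zero_smul, zero_smul]
  rw [h1]
  have h2 : ∑ i, α i • dotE (C.ℓ i) w = ∑ a, (∑ i, α i • C.ℓ i) a • w a := by
    simp only [dotE, Finset.smul_sum, smul_smul, Finset.sum_apply, Pi.smul_apply, smul_eq_mul, Finset.sum_smul]
    rw [Finset.sum_comm]
  rw [h2, hα.2]
  simp

/-- Module LA3. -/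
theorem tLA3 (h1 : DuaStmt) (h2 : ExlStmt) (h3 : FmkStmt) : LA3Stmt := by
  intro k _ _ r C hC hr P₀ E _ _ t ht
  have hyp : ∀ t : Fin r → k, (∀ α ∈ {ρ : Fin r → k | ∃ P ∈ C.M, P ≠ P₀ ∧ C.IsRel P ρ}, ∑ x, α x * t x = 0) →
      ∃ y : Fin 3 → k, ∀ x, t x = ∑ j, C.ℓ x j * y j := by
    intro t ht
    obtain ⟨v, hv⟩ := h3 k r C hC hr P₀ t (by
      intro P hP hne
      obtain ⟨v, s, hs, hv⟩ := h1 k r C {P} Set.univ (fun _ i => t i) (by
        intro ρ _ hρ2 _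
        rw [Finset.sum_singleton]
        exact ht (ρ P) ⟨P, hP, hne, hρ2 P (Finset.mem_singleton_self P)⟩)
      refine ⟨v P, ?_⟩
      intro i hi
      have h := hv P (Finset.mem_singleton_self P) i hi
      rw [hs i (Set.mem_univ i), add_zero] at h
      exact h)
    exact ⟨v, hv⟩
  obtain ⟨y, hy⟩ := h2 k (Fin r) (Fin 3) {ρ : Fin r → k | ∃ P ∈ C.M, P ≠ P₀ ∧ C.IsRel P ρ} (fun i a => C.ℓ i a) hyp
    E t (by
      rintro α ⟨P, hP, hne, hα⟩
      obtain ⟨w, hw⟩ := ht P hP hne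
      exact LA3_ann C t P α hα w hw)
  exact ⟨y, hy⟩

end Pool.Agent.Lib.MP_4318ff_ag
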