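import Pool.Agent.Lib.MP_4318ff_ag.Spec.LA

/-!
# MP_4318ff_ag: LA4 over a vector space (`LA4Stmt`)
-/

set_option autoImplicit false

namespace Pool.Agent.Lib.MP_4318ff_ag

open scoped LinearAlgebra.Projectivization

section LA4

variable {k : Type} [Field k] {r : ℕ} {S : Finset (Pt k)}

open Classical in
/-- The matrix of the map `(s, a) ↦ s i + a P`, zero outside of the incidences. -/
private noncomputable def LA4_N (C : Config k r) (x : {P // P ∈ S} × Fin r) :
    Fin r ⊕ {P // P ∈ S} → k :=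
  if x.2 ∈ C.through x.1 then Sum.elim (Pi.single x.2 1) (Pi.single x.1 1) else 0

private theorem LA4_sum_in (C : Config k r) {E : Type} [AddCommGroup E] [Module k E]
    (x : {P // P ∈ S} × Fin r) (hx : x.2 ∈ C.through x.1) (y : Fin r ⊕ {P // P ∈ S} → E) :
    ∑ j, LA4_N C x j • y j = y (Sum.inl x.2) + y (Sum.inr x.1) := by
  classical
  unfold LA4_N
  rw [if_pos hx, Fintype.sum_sum_type]
  simp only [Sum.elim_inl, Sum.elim_inr]
  rw [Finset.sum_eq_single x.2, Finset.sum_eq_single x.1]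
  · rw [Pi.single_eq_same, Pi.single_eq_same, one_smul, one_smul]
  · intro b _ hb
    rw [Pi.single_eq_of_ne hb, zero_smul]
  · intro h
    exact absurd (Finset.mem_univ _) h
  · intro b _ hb
    rw [Pi.single_eq_of_ne hb, zero_smul]
  · intro h
    exact absurd (Finset.mem_univ _) h

private theorem LA4_sum_out (C : Config k r) {E : Type} [AddCommGroup E] [Module k E]
    (x : {P // P ∈ S} × Fin r) (hx : x.2 ∉ C.through x.1) (y : Fin r ⊕ {P // P ∈ S} → E) :
    ∑ j, LA4_N C x j • y j = 0 := by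
  classical
  unfold LA4_N
  rw [if_neg hx]
  simp

private theorem LA4_prod {E : Type} [AddCommGroup E] (f : Pt k → Fin r → E) :
    ∑ x : {P // P ∈ S} × Fin r, f x.1 x.2 = ∑ P ∈ S, ∑ i, f P i := by
  rw [Fintype.sum_prod_type]
  exact Finset.sum_coe_sort S fun P => ∑ i, f P i

private theorem LA4_single {E : Type} [AddCommGroup E] [Module k E] {X : Type} [Fintype X]
    [DecidableEq X] (x : X) (t : X → E) :
    ∑ z, (Pi.single x 1 : X → k) z • t z = t x := by
  rw [Finset.sum_eq_single x]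
  · rw [Pi.single_eq_same, one_smul]
  · intro b _ hb
    rw [Pi.single_eq_of_ne hb, zero_smul]
  · intro h
    exact absurd (Finset.mem_univ _) h

end LA4

/-- **LA4 over a vector space.** -/
theorem tLA4 (h1 : ExlStmt) (h2 : L4kStmt) : LA4Stmt := by
  classical
  intro k _ r C hC hr P₀ S hS hS' E _ _ t ht
  let A : Set ({P // P ∈ S} × Fin r → k) :=
    {α | ∃ T ∈ C.M, ∃ ρ : Pt k → Fin r → k, (∀ P, P ∉ S → ρ P = 0) ∧
        (∀ P ∈ S, C.IsRel P (ρ P)) ∧ (∀ i, i ∉ C.through T → ∑ P ∈ S, ρ P i = 0) ∧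
        α = fun x => ρ x.1 x.2 * (C.ℓ x.2 ⬝ᵥ T.rep)} ∪
      {α | ∃ x : {P // P ∈ S} × Fin r, x.2 ∉ C.through x.1 ∧ α = Pi.single x 1}
  have key := h1 k ({P // P ∈ S} × Fin r) (Fin r ⊕ {P // P ∈ S}) A (LA4_N C) (by
    intro u hu
    obtain ⟨s, a, hsa⟩ := h2 k r C hC hr P₀ S hS hS'
      (fun P i => if h : P ∈ S then u (⟨P, h⟩, i) else 0) (by
        intro T hT ρ hρ1 hρ2 hρ3
        have h3 := hu (fun x => ρ x.1 x.2 * (C.ℓ x.2 ⬝ᵥ T.rep))
          (Or.inl ⟨T, hT, ρ, hρ1, hρ2, hρ3, rfl⟩)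
        refine Eq.trans ?_ h3
        rw [← LA4_prod (S := S) fun P i => (ρ P i * (C.ℓ i ⬝ᵥ T.rep)) *
          (if h : P ∈ S then u (⟨P, h⟩, i) else 0)]
        refine Finset.sum_congr rfl fun x _ => ?_
        rw [dif_pos x.1.2])
    refine ⟨Sum.elim s fun P => a P.1, fun x => ?_⟩
    by_cases hx : x.2 ∈ C.through x.1
    · have h4 := LA4_sum_in (E := k) C x hx (Sum.elim s fun P => a P.1)
      simp only [smul_eq_mul, Sum.elim_inl, Sum.elim_inr] at h4
      rw [h4]
      have h5 := hsa x.1.1 x.1.2 x.2 hx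
      rw [dif_pos x.1.2] at h5
      exact h5
    · have h4 := LA4_sum_out (E := k) C x hx (Sum.elim s fun P => a P.1)
      simp only [smul_eq_mul] at h4
      rw [h4]
      have h5 := hu (Pi.single x 1) (Or.inr ⟨x, hx, rfl⟩)
      have h6 := LA4_single (k := k) (E := k) x u
      simp only [smul_eq_mul] at h6
      rw [← h6]
      exact h5) E (fun x => if x.2 ∈ C.through x.1 then t x.1 x.2 else 0) (by
    rintro α (⟨T, hT, ρ, hρ1, hρ2, hρ3, rfl⟩ | ⟨x, hx, rfl⟩)
    · refine Eq.trans ?_ (ht T hT ρ hρ1 hρ2 hρ3)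
      rw [← LA4_prod (S := S) fun P i => (ρ P i * (C.ℓ i ⬝ᵥ T.rep)) • t P i]
      refine Finset.sum_congr rfl fun x _ => ?_
      by_cases hx : x.2 ∈ C.through x.1
      · rw [if_pos hx]
      · simp only [(hρ2 x.1.1 x.1.2).1 x.2 hx, zero_mul, zero_smul]
    · rw [LA4_single, if_neg hx])
  obtain ⟨y, hy⟩ := key
  refine ⟨fun i => y (Sum.inl i), fun P => if h : P ∈ S then y (Sum.inr ⟨P, h⟩) else 0, ?_⟩
  intro P hP i hi
  have h4 := hy (⟨P, hP⟩, i)
  rw [LA4_sum_in C (⟨P, hP⟩, i) hi y] at h4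
  simp only [if_pos hi] at h4
  simp only [dif_pos hP]
  exact h4

end Pool.Agent.Lib.MP_4318ff_ag
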