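import Pool.Agent.Lib.MP_4318ff_ag.Spec.LA

/-!
# MP_4318ff_ag, block LA: the vector v over an extension E of F
-/

set_option autoImplicit false

namespace Pool.Agent.Lib.MP_4318ff_ag

open scoped LinearAlgebra.Projectivization

/-- The vector v over E. -/
theorem tLA5 (h1 : LA3Stmt) (h2 : LA4Stmt) : LA5Stmt := by
  intro k _ _ r C hC hr P₀ S hS1 hS2 E _ _ _ _ t w hw hT
  obtain ⟨s, a, hsa⟩ := h2 k r C hC hr P₀ S hS1 hS2 E t hT
  set G : Fin 3 → E := fun j => algebraMap (F k) E (gen k j) with hG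
  have hev : ∀ c : Fin 3 → k, algebraMap (F k) E (ev c) = dotE c G := by
    intro c
    unfold ev dotE
    rw [map_sum]
    refine Finset.sum_congr rfl fun j _ => ?_
    rw [map_mul, ← IsScalarTower.algebraMap_apply, Algebra.smul_def]
  have hdot : ∀ (c : Fin 3 → k) (x : Fin 3 → E) (b : E),
      dotE c (fun j => x j - b * G j) = dotE c x - b * dotE c G := by
    intro c x b
    unfold dotE
    rw [Finset.mul_sum, ← Finset.sum_sub_distrib]
    refine Finset.sum_congr rfl fun j _ => ?_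
    rw [smul_sub, mul_smul_comm]
  obtain ⟨v, hv⟩ := h1 k r C hC hr P₀ E (fun i => s i * algebraMap (F k) E (ev (C.ℓ i))) (by
    intro P hP hP0
    refine ⟨fun j => w P j - a P * G j, fun i hi => ?_⟩
    rw [hdot, ← hw P (hS2 P hP hP0) i hi, ← hev, hsa P (hS2 P hP hP0) i hi]
    ring)
  exact ⟨s, a, v, hsa, fun i => (hv i).symm⟩

end Pool.Agent.Lib.MP_4318ff_ag
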