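import Pool.Agent.Lib.MP_4318ff_ag.Spec.LA

/-!
MP_4318ff_ag, module LA/LA7: case C.
-/

set_option autoImplicit false

namespace Pool.Agent.Lib.MP_4318ff_ag

open scoped LinearAlgebra.Projectivization

theorem tLA7 (h1 : CorStmt) (_h2 : SpnStmt) : LA7Stmt := by
  intro k _ r C hR hr S hS E _ _ _ t u hu hH P hP
  have hinj : Function.Injective (Algebra.linearMap k E) :=
    FaithfulSMul.algebraMap_injective k E
  obtain ⟨e, he⟩ := LinearMap.exists_leftInverse_of_injective (Algebra.linearMap k E)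
    (LinearMap.ker_eq_bot.2 hinj)
  have he1 : ∀ z : k, e (algebraMap k E z) = z := fun z => LinearMap.congr_fun he z
  obtain ⟨V, s, hV⟩ := h1 k r C hR P S (fun Q hQ => (hS Q).1 hQ) (fun Q hQ _ => (hS Q).2 hQ)
    (fun Q i => e (t Q i) • C.ℓ i + u Q i) (by
      intro Q hQ i hi
      rw [add_dotProduct, smul_dotProduct, hu Q hQ i hi]
      have h3 : C.ℓ i ⬝ᵥ Q.rep = 0 := hi
      rw [h3, smul_zero, add_zero]) (by
      intro ρ ha hb hc y
      have h3 := congrArg e (hH ρ ha hb hc y)
      rw [map_zero, map_sum] at h3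
      rw [← h3]
      refine Finset.sum_congr rfl fun Q _ => ?_
      rw [map_sum]
      refine Finset.sum_congr rfl fun i _ => ?_
      rw [map_smul, map_add, map_smul, he1, add_dotProduct, smul_dotProduct, smul_eq_mul,
        smul_eq_mul, smul_eq_mul, mul_comm (e (t Q i))]) (fun h => absurd hP h)
  refine ⟨V P, fun i => s i - e (t P i), fun i hi => ?_⟩
  have h3 := hV P hP i hi
  have h4 : u P i = Matrix.vecMul (C.ℓ i) (V P) + s i • C.ℓ i - e (t P i) • C.ℓ i := by
    rw [← h3, add_sub_cancel_left]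
  rw [h4, sub_smul]
  abel

end Pool.Agent.Lib.MP_4318ff_ag
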