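import Pool.Agent.Lib.MP_4318ff_ag.Spec.LA

/-!
# MP_4318ff_ag, module Spn: the points of `M` without one point are not contained in a line
-/

set_option autoImplicit false

namespace Pool.Agent.Lib.MP_4318ff_ag

open scoped LinearAlgebra.Projectivization

private theorem Spn_one (h1 : PntStmt) (h2 : BasStmt) (h3 : TwoStmt) (k : Type) [Field k] (r : ℕ) (C : Config k r)
    (hC : C.InfRigid) (hr : 6 ≤ r) (P₀ : Pt k) (c : Fin 3 → k) (hc : c ≠ 0) :
    ∃ P ∈ C.M, P ≠ P₀ ∧ c ⬝ᵥ P.rep ≠ 0 := by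
  by_contra hcon
  have H : ∀ P ∈ C.M, P ≠ P₀ → c ⬝ᵥ P.rep = 0 := by
    intro P hP hne
    by_contra h
    exact hcon ⟨P, hP, hne, h⟩
  obtain ⟨b1, -, -, b4, -, b6⟩ := h2 k r C
  have hA : ∀ i : Fin r, i ∉ C.through P₀ → ∃ z : k, C.ℓ i = z • c := by
    intro i hi
    obtain ⟨P, hP, Q, hQ, hPQ, hiP, hiQ⟩ := h3 k r C hC hr i
    have hP0 : P ≠ P₀ := by
      rintro rfl
      exact hi hiP
    have hQ0 : Q ≠ P₀ := by
      rintro rfl
      exact hi hiQ
    obtain ⟨c', -, -, -, hc'⟩ := (h1 k).2.2.1 P Q hPQ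
    obtain ⟨x, hx⟩ := hc' (C.ℓ i) hiP hiQ
    obtain ⟨y, hy⟩ := hc' c (H P hP hP0) (H Q hQ hQ0)
    have hy0 : y ≠ 0 := by
      rintro rfl
      exact hc (by rw [hy, zero_smul])
    refine ⟨x * y⁻¹, ?_⟩
    rw [hx, hy, smul_smul, mul_assoc, inv_mul_cancel₀ hy0, mul_one]
  have hB : ∀ i j : Fin r, i ∉ C.through P₀ → j ∉ C.through P₀ → i = j := by
    intro i j hi hj
    by_contra hij
    obtain ⟨z, hz⟩ := hA i hi
    obtain ⟨z', hz'⟩ := hA j hj
    have hli := C.indep i j hij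
    rw [LinearIndependent.pair_iff] at hli
    have h := hli z' (-z) (by
      rw [hz, hz', smul_smul, smul_smul, neg_mul, neg_smul, mul_comm z' z, add_neg_cancel])
    have hz0 : z = 0 := neg_eq_zero.mp h.2
    have hli1 := C.indep i j hij
    have hne := hli1.ne_zero 0
    apply hne
    simp [hz, hz0]
  obtain ⟨i₀, hi₀⟩ := b6 P₀
  obtain ⟨j, hj⟩ : ∃ j : Fin r, j ≠ i₀ := by
    have : Nontrivial (Fin r) := Fin.nontrivial_iff_two_le.mpr (by omega)
    exact exists_ne i₀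
  have hjP : j ∈ C.through P₀ := by
    by_contra h
    exact hj (hB j i₀ h hi₀)
  obtain ⟨R, hR, hRne, hjR⟩ : ∃ R ∈ C.M, R ≠ P₀ ∧ j ∈ C.through R := by
    obtain ⟨P, hP, Q, hQ, hPQ, hiP, hiQ⟩ := h3 k r C hC hr j
    by_cases h : P = P₀
    · refine ⟨Q, hQ, ?_, hiQ⟩
      rintro rfl
      exact hPQ h
    · exact ⟨P, hP, h, hiP⟩
  obtain ⟨m, hmR, hmj, hmi⟩ := b4 R hR j i₀
  have hmP : m ∈ C.through P₀ := by
    by_contra h
    exact hmi (hB m i₀ h hi₀)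
  exact hRne (b1 m j P₀ R hmj hmP hjP hmR hjR).symm

/-- Module Spn. -/
theorem tSpn (h1 : PntStmt) (h2 : BasStmt) (h3 : TwoStmt) : SpnStmt := by
  intro k _ r C hC hr
  refine ⟨Spn_one h1 h2 h3 k r C hC hr, ?_⟩
  intro P₀
  by_contra hne
  obtain ⟨f, hf0, hf⟩ := Submodule.exists_le_ker_of_lt_top _ (lt_top_iff_ne_top.mpr hne)
  let c : Fin 3 → k := fun a => f (Pi.single a 1)
  have hfc : ∀ x : Fin 3 → k, f x = c ⬝ᵥ x := by
    intro x
    rw [LinearMap.pi_apply_eq_sum_univ f x, dotProduct]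
    refine Finset.sum_congr rfl ?_
    intro a _
    rw [smul_eq_mul, mul_comm]
    congr 2
    funext b
    by_cases hb : a = b
    · subst hb
      simp
    · rw [if_neg hb, Pi.single_eq_of_ne (Ne.symm hb)]
  have hc0 : c ≠ 0 := by
    intro h
    apply hf0
    ext1 x
    apply LinearMap.ext
    intro y
    simp [hfc, h]
  obtain ⟨P, hP, hPne, hcP⟩ := Spn_one h1 h2 h3 k r C hC hr P₀ c hc0
  apply hcP
  rw [← hfc]
  exact hf (Submodule.subset_span ⟨P, hP, hPne, rfl⟩)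

end Pool.Agent.Lib.MP_4318ff_ag
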