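import Pool.Agent.Lib.MP_4318ff_ag.Spec.LA

/-!
# MP_4318ff_ag, block LA, module Two: every line of an infinitesimally rigid configuration contains two points of `M`
-/

set_option autoImplicit false

namespace Pool.Agent.Lib.MP_4318ff_ag

open scoped LinearAlgebra.Projectivization

/-- two different lines meet in a point -/
private lemma Two_meet {k : Type} [Field k] {r : ℕ} (C : Config k r) {i j : Fin r} (h : i ≠ j) :
    ∃ Q : Pt k, i ∈ C.through Q ∧ j ∈ C.through Q := by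
  have h0 : crossProduct (C.ℓ i) (C.ℓ j) ≠ 0 :=
    crossProduct_ne_zero_iff_linearIndependent.2 (C.indep i j h)
  refine ⟨Projectivization.mk k _ h0, ?_, ?_⟩
  · obtain ⟨a, ha⟩ := Projectivization.exists_smul_eq_mk_rep k _ h0
    change C.ℓ i ⬝ᵥ (Projectivization.mk k _ h0).rep = 0
    rw [← ha]
    change C.ℓ i ⬝ᵥ ((a : k) • _) = 0
    rw [dotProduct_smul, dot_self_cross, smul_zero]
  · obtain ⟨a, ha⟩ := Projectivization.exists_smul_eq_mk_rep k _ h0
    change C.ℓ j ⬝ᵥ (Projectivization.mk k _ h0).rep = 0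
    rw [← ha]
    change C.ℓ j ⬝ᵥ ((a : k) • _) = 0
    rw [dotProduct_smul, dot_cross_self, smul_zero]

theorem tTwo (h1 : PntStmt) (h2 : BasStmt) (h3 : FouStmt) (h4 : EplStmt) : TwoStmt := by
  intro k _ r C hR hr i
  obtain ⟨-, p2, -, -, -⟩ := h1 k
  obtain ⟨b1, b2, b3, b4, -, -⟩ := h2 k r C
  by_contra hno
  have hno' : ∀ P ∈ C.M, ∀ Q ∈ C.M, i ∈ C.through P → i ∈ C.through Q → P = Q := by
    intro P hP Q hQ hiP hiQ
    by_contra hPQ
    exact hno ⟨P, hP, Q, hQ, hPQ, hiP, hiQ⟩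
  -- the form `b = ℓ j`
  obtain ⟨j, hji, hj⟩ : ∃ j, j ≠ i ∧ ∀ R ∈ C.M, i ∈ C.through R → j ∈ C.through R := by
    by_cases hex : ∃ R ∈ C.M, i ∈ C.through R
    · obtain ⟨R, hR1, hR2⟩ := hex
      obtain ⟨m, hm, hmi, -⟩ := b4 R hR1 i i
      refine ⟨m, hmi, ?_⟩
      intro R' hR' hi'
      rw [← hno' R hR1 R' hR' hR2 hi']
      exact hm
    · obtain ⟨m, hm⟩ : ∃ m : Fin r, m ≠ i := by
        have : Nontrivial (Fin r) := Fin.nontrivial_iff_two_le.2 (by omega)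
        exact exists_ne i
      exact ⟨m, hm, fun R hR1 hR2 => absurd ⟨R, hR1, hR2⟩ hex⟩
  obtain ⟨B, s, hB⟩ := hR (fun m => if m = i then C.ℓ j else 0) (by
    intro R hR1
    refine ⟨0, ?_⟩
    intro m hm
    by_cases hmi : m = i
    · subst hmi
      rw [if_pos rfl, dotProduct_zero, add_zero]
      exact hj R hR1 hm
    · rw [if_neg hmi, zero_dotProduct, dotProduct_zero, add_zero])
  have hBm : ∀ m, m ≠ i → Matrix.vecMul (C.ℓ m) B = (-s m) • C.ℓ m := by
    intro m hm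
    have h := hB m
    simp only [if_neg hm] at h
    rw [neg_smul]
    exact eq_neg_of_add_eq_zero_left h.symm
  have hBi : ∀ c : k, Matrix.vecMul (C.ℓ i) B ≠ c • C.ℓ i := by
    intro c hc
    have h := hB i
    simp only [if_true] at h
    rw [hc, ← add_smul] at h
    have h5 := C.indep i j hji.symm
    rw [LinearIndependent.pair_iff] at h5
    have h6 := (h5 (c + s i) (-1) (by rw [neg_one_smul, h, add_neg_cancel])).2
    exact one_ne_zero (neg_eq_zero.1 h6)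
  -- the eigenvalue `c`
  have hJ : (Finset.univ.erase i : Finset (Fin r)).card = r - 1 := by
    rw [Finset.card_erase_of_mem (Finset.mem_univ _), Finset.card_univ, Fintype.card_fin]
  obtain ⟨c, j₀, hj₀, hc⟩ := h4 k r C.ℓ (Finset.univ.erase i) B (fun m => -s m) (by omega)
    (fun a _ b _ hab => C.indep a b hab)
    (fun m hm => hBm m (Finset.ne_of_mem_erase hm))
  have hgood : ∀ m, m ≠ i → m ≠ j₀ → Matrix.vecMul (C.ℓ m) B = c • C.ℓ m := by
    intro m hm hm'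
    rw [hBm m hm, ← hc m (Finset.mem_erase.2 ⟨hm, Finset.mem_univ _⟩) hm']
  set G : Finset (Fin r) := (Finset.univ.erase i).erase j₀ with hG
  have hGmem : ∀ m, m ∈ G ↔ m ≠ j₀ ∧ m ≠ i := by
    intro m
    rw [hG, Finset.mem_erase, Finset.mem_erase]
    simp
  have hGc : G.card = r - 2 := by
    rw [hG, Finset.card_erase_of_mem hj₀, hJ]
    omega
  obtain ⟨j1, hj1, j2, hj2, hj12⟩ := Finset.one_lt_card.1 (show 1 < G.card by omega)
  rw [hGmem] at hj1 hj2
  obtain ⟨Q, hQ1, hQ2⟩ := Two_meet C hj12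
  have hQform : ∀ e : Fin 3 → k, e ⬝ᵥ Q.rep = 0 → Matrix.vecMul e B = c • e := by
    intro e he
    obtain ⟨x, y, rfl⟩ := p2 Q (C.ℓ j1) (C.ℓ j2) e (C.indep _ _ hj12) hQ1 hQ2 he
    rw [Matrix.add_vecMul, Matrix.smul_vecMul, Matrix.smul_vecMul, hgood j1 hj1.2 hj1.1,
      hgood j2 hj2.2 hj2.1, smul_add, smul_comm x c, smul_comm y c]
  have hiQ : i ∉ C.through Q := fun h => hBi c (hQform _ h)
  have hGQ : ∀ m, m ≠ i → m ≠ j₀ → m ∈ C.through Q := by
    intro m hm hm'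
    by_contra hmQ
    have hmQ' : C.ℓ m ⬝ᵥ Q.rep ≠ 0 := hmQ
    refine hBi c ?_
    set z : k := (C.ℓ i ⬝ᵥ Q.rep) / (C.ℓ m ⬝ᵥ Q.rep) with hz
    have h5 : (C.ℓ i - z • C.ℓ m) ⬝ᵥ Q.rep = 0 := by
      rw [sub_dotProduct, smul_dotProduct, hz, smul_eq_mul, div_mul_cancel₀ _ hmQ', sub_self]
    have h6 := hQform _ h5
    rw [Matrix.sub_vecMul, Matrix.smul_vecMul, hgood m hm hm', smul_sub, smul_comm z c,
      sub_left_inj] at h6
    exact h6
  have hQcard : 4 ≤ (C.through Q).ncard := by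
    have h5 : (G : Set (Fin r)) ⊆ C.through Q := by
      intro m hm
      have hm' := (hGmem m).1 hm
      exact hGQ m hm'.2 hm'.1
    have h6 := Set.ncard_le_ncard h5 (Set.toFinite _)
    rw [Set.ncard_coe_finset, hGc] at h6
    omega
  -- the other point of `M` on a good line
  have key : ∀ m, m ≠ i → m ≠ j₀ → ∃ R ∈ C.M, R ≠ Q ∧ m ∈ C.through R ∧ i ∈ C.through R ∧
      j₀ ∈ C.through R := by
    intro m hm hm'
    obtain ⟨R, hRM, hRQ, hmR⟩ := h3 k r C hR Q hQcard m (hGQ m hm hm')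
    have h7 : ∀ n ∈ C.through R, n ≠ m → n = i ∨ n = j₀ := by
      intro n hn hnm
      by_contra hcon
      push Not at hcon
      exact hRQ (b1 n m R Q hnm hn hmR (hGQ n hcon.1 hcon.2) (hGQ m hm hm'))
    obtain ⟨n, hn, hn1, hn2⟩ := b4 R hRM m i
    obtain ⟨n', hn', hn1', hn2'⟩ := b4 R hRM m j₀
    refine ⟨R, hRM, hRQ, hmR, ?_, ?_⟩
    · rcases h7 n' hn' hn1' with h | h
      · rw [← h]
        exact hn'
      · exact absurd h hn2'
    · rcases h7 n hn hn1 with h | h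
      · exact absurd h hn2
      · rw [← h]
        exact hn
  obtain ⟨R1, -, hR1Q, hR1, hR1i, hR1j⟩ := key j1 hj1.2 hj1.1
  obtain ⟨R2, -, -, hR2, hR2i, hR2j⟩ := key j2 hj2.2 hj2.1
  have hij₀ : i ≠ j₀ := (Finset.ne_of_mem_erase hj₀).symm
  have h8 : R1 = R2 := b1 i j₀ R1 R2 hij₀ hR1i hR1j hR2i hR2j
  rw [← h8] at hR2
  exact hR1Q (b1 j1 j2 R1 Q hj12 hR1 hR2 hQ1 hQ2)

end Pool.Agent.Lib.MP_4318ff_ag
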