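import Pool.Agent.Lib.MP_4318ff_ag.LA.Pnt
import Pool.Agent.Lib.MP_4318ff_ag.LA.Bas
import Pool.Agent.Lib.MP_4318ff_ag.LA.Eig
import Pool.Agent.Lib.MP_4318ff_ag.LA.Dua
import Pool.Agent.Lib.MP_4318ff_ag.LA.Exl
import Pool.Agent.Lib.MP_4318ff_ag.LA.Fou
import Pool.Agent.Lib.MP_4318ff_ag.LA.Epl
import Pool.Agent.Lib.MP_4318ff_ag.LA.Two
import Pool.Agent.Lib.MP_4318ff_ag.LA.Spn
import Pool.Agent.Lib.MP_4318ff_ag.LA.Avd
import Pool.Agent.Lib.MP_4318ff_ag.LA.Fmk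
import Pool.Agent.Lib.MP_4318ff_ag.LA.LA3
import Pool.Agent.Lib.MP_4318ff_ag.LA.Cor
import Pool.Agent.Lib.MP_4318ff_ag.LA.L4k
import Pool.Agent.Lib.MP_4318ff_ag.LA.LA4
import Pool.Agent.Lib.MP_4318ff_ag.LA.LA5
import Pool.Agent.Lib.MP_4318ff_ag.LA.LA7

/-!
# MP_4318ff_ag, block LA: assembly
-/

set_option autoImplicit false

namespace Pool.Agent.Lib.MP_4318ff_ag

theorem la_pnt : PntStmt := tPnt
theorem la_bas : BasStmt := tBas la_pnt
theorem la_eig : EigStmt := tEig la_pnt la_bas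
theorem la_two : TwoStmt := tTwo la_pnt la_bas (tFou la_pnt la_bas) tEpl
theorem la_spn : SpnStmt := tSpn la_pnt la_bas la_two
theorem la_avd : AvdStmt := tAvd la_pnt
theorem la_fmk : FmkStmt := tFmk la_pnt la_bas la_two la_avd
theorem la_3 : LA3Stmt := tLA3 tDua tExl la_fmk
theorem la_cor : CorStmt := tCor tDua
theorem la_4 : LA4Stmt := tLA4 tExl (tL4k la_eig la_spn la_cor)
theorem la_5 : LA5Stmt := tLA5 la_3 la_4
theorem la_7 : LA7Stmt := tLA7 la_cor la_spn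

end Pool.Agent.Lib.MP_4318ff_ag
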